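import Pool.Agent.helper35.BQ.Spec2

/-!
# Project bq, row CEG: elements of `E` which centralise `G` are inner for every block
-/

set_option autoImplicit false

namespace Pool.Agent.BQ

open Pool.Agent.helper58.DC Pool.Agent.DI Pool.Agent.DR Pool.Agent.NQ

section

variable {G E A : Type} [Group G] [Group E] [Group A] (X : Extension G E A)

/-- the element `y` of `G⟨y⟩` -/
def CEG_s (y : E) : GY X y := ⟨y, self_mem X y⟩

theorem CEG_inj (y : E) : Function.Injective (incY X y) := by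
  intro a b h
  exact X.inc_injective (congrArg Subtype.val h)

theorem CEG_conj (y : E) (m : GY X y) (g : G) :
    incY X y (X.act m.1 g) = m * incY X y g * m⁻¹ := by
  apply Subtype.ext
  exact X.act_spec m.1 g

theorem CEG_exp (y : E) (m : GY X y) : ∃ (k : ℤ) (g : G), CEG_s X y ^ k * m = incY X y g := by
  obtain ⟨k, hk⟩ := Subgroup.mem_zpowers_iff.1 (show X.proj m.1 ∈ Subgroup.zpowers (X.proj y) from m.2)
  obtain ⟨g, hg⟩ := (X.exact (y ^ (-k) * m.1)).1 (by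
    rw [map_mul, map_zpow, ← hk, ← zpow_add, neg_add_cancel, zpow_zero])
  refine ⟨-k, g, Subtype.ext ?_⟩
  exact hg.symm

theorem CEG_cyc (y : E) : CycQ (incY X y).range := by
  refine ⟨⟨?_⟩, CEG_s X y, fun x => ?_⟩
  · rintro _ ⟨g, rfl⟩ m
    exact ⟨X.act m.1 g, CEG_conj X y m g⟩
  · obtain ⟨k, g, h⟩ := CEG_exp X y x
    exact ⟨k, g, h.symm⟩

variable (y : E) (hy : ∀ g, X.act y g = g)

include hy

theorem CEG_comm (g : G) : Commute (CEG_s X y) (incY X y g) := by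
  have h := CEG_conj X y (CEG_s X y) g
  have h2 : X.act (CEG_s X y).1 g = g := hy g
  rw [h2] at h
  exact (eq_mul_inv_iff_mul_eq.1 h).symm

omit hy in
theorem CEG_dec (m : GY X y) : ∃ (k : ℤ) (g : G), m = CEG_s X y ^ k * incY X y g := by
  obtain ⟨k, g, h⟩ := CEG_exp X y m
  refine ⟨-k, g, ?_⟩
  rw [← h, zpow_neg, inv_mul_cancel_left]

theorem CEG_central (m : GY X y) : Commute (CEG_s X y) m := by
  obtain ⟨k, g, rfl⟩ := CEG_dec X y m
  exact ((Commute.refl _).zpow_right k).mul_right (CEG_comm X y hy g)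

theorem CEG_act (m : GY X y) : ∃ g : G, ∀ k, incY X y (MulAut.conj g k) =
    m * incY X y k * m⁻¹ := by
  obtain ⟨k, g, rfl⟩ := CEG_dec X y m
  refine ⟨g, fun x => ?_⟩
  have h1 : Commute (CEG_s X y ^ k) (incY X y (MulAut.conj g x)) :=
    (CEG_comm X y hy _).zpow_left k
  have h2 : incY X y (MulAut.conj g x) = incY X y g * incY X y x * (incY X y g)⁻¹ := by
    rw [MulAut.conj_apply, map_mul, map_mul, map_inv]
  have h3 : CEG_s X y ^ k * incY X y g * incY X y x * (CEG_s X y ^ k * incY X y g)⁻¹ =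
      CEG_s X y ^ k * (incY X y g * incY X y x * (incY X y g)⁻¹) * (CEG_s X y ^ k)⁻¹ := by
    group
  rw [h3, ← h2, h1.eq, mul_inv_cancel_right]

end

theorem CEG_omega {Γ : Type} [Group Γ] (φ : Γ → ℂ) (s : Γ) (hs : ∀ m, Commute s m) :
    omega φ s = φ s / φ 1 := by
  unfold omega
  have h1 : conjugatesOf s = {s} := by
    ext x
    rw [Set.mem_singleton_iff]
    constructor
    · intro hx
      obtain ⟨c, hc⟩ := isConj_iff.1 (show IsConj s x from hx)
      rw [← hc, ← (hs c).eq, mul_inv_cancel_right]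
    · rintro rfl
      exact IsConj.refl _
  rw [h1, finsum_mem_singleton]

theorem CEG (hB0 : B0_stmt) (hB2 : B2_stmt) (hB4 : B4_stmt) (hB9 : B9_stmt) (hB13 : B13_stmt)
    (hC1 : C1_stmt) (hC3 : C3_stmt) (hTI : TI_stmt) (hIM : IM_stmt) : CEG_stmt := by
  classical
  intro G E A _ _ _ _ _ X p _ M hM hpM χ hχ y hy
  have hi := CEG_inj X y
  have hK := CEG_cyc X y
  obtain ⟨b1, b2, -, -, -, b6⟩ := hB13 G (GY X y) p (incY X y) hi ⊤
  have hχ' : χ ∈ IrrOn (⊤ : Subgroup G) := (hTI G χ).2 hχ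
  have h0 : ext0 (incY X y) χ ∈ IrrOn (incY X y).range := by
    rw [MonoidHom.range_eq_map]
    exact (b2 χ).1 hχ'
  obtain ⟨-, hclass, -, -, horth⟩ := (hB2 G ⊤).2 χ hχ'
  have hinv : ∀ m : GY X y, funMap (MulAut.conj m) (ext0 (incY X y) χ) = ext0 (incY X y) χ := by
    intro m
    obtain ⟨g, hg⟩ := CEG_act X y hy m
    rw [b6 χ (MulAut.conj g) m hg]
    congr 1
    funext k
    have h1 := hclass k g⁻¹ (Subgroup.mem_top _)
    rw [inv_inv] at h1
    show χ ((MulAut.conj g)⁻¹ k) = χ k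
    rw [MulAut.conj_inv_apply, h1]
  obtain ⟨φ, hφ, hover⟩ : ∃ φ : GY X y → ℂ, φ ∈ Irr (GY X y) ∧
      OverP (incY X y).range ⊤ φ (ext0 (incY X y) χ) := by
    have h1 := (hB9 (GY X y) (incY X y).range hK).2.1 _ h0
    have h2 : 0 < Nat.card (stF (⊤ : Subgroup (GY X y)) (ext0 (incY X y) χ)) := Nat.card_pos
    rw [← h1] at h2
    have h3 : Nat.card {φ : GY X y → ℂ // φ ∈ Irr (GY X y) ∧
      OverP (incY X y).range ⊤ φ (ext0 (incY X y) χ)} ≠ 0 := by
      intro h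
      rw [h, zero_mul] at h2
      exact lt_irrefl _ h2
    obtain ⟨⟨φ, hφ⟩⟩ := (Nat.card_ne_zero.1 h3).1
    exact ⟨φ, hφ.1, hφ.2⟩
  have hset : {ψ' : GY X y → ℂ | ∃ n ∈ (⊤ : Subgroup (GY X y)),
      ψ' = funMap (MulAut.conj n) (ext0 (incY X y) χ)} = {ext0 (incY X y) χ} := by
    ext ψ'
    rw [Set.mem_ofPred_eq, Set.mem_singleton_iff]
    constructor
    · rintro ⟨n, -, rfl⟩
      exact hinv n
    · rintro rfl
      exact ⟨1, Subgroup.mem_top _, (hinv 1).symm⟩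
  have hval : ∀ g : G, φ (incY X y g) = χ g := by
    intro g
    have h1 := hover (incY X y g) ⟨g, rfl⟩
    rw [hset, finsum_mem_singleton] at h1
    rw [h1]
    exact (b1 χ).1 g
  have hφ' : φ ∈ IrrOn (⊤ : Subgroup (GY X y)) := (hTI _ φ).2 hφ
  have hφ1 : φ 1 ≠ 0 := by
    obtain ⟨n, hn, hn1, -⟩ := ((hB2 (GY X y) ⊤).2 φ hφ').1
    rw [hn1]
    exact_mod_cast hn.ne'
  refine ⟨φ, hφ, ⟨χ, hχ, (hIM G M χ χ χ).1, ?_⟩, ?_⟩
  · have h1 : ∑ᶠ g : G, φ (incY X y g) * χ g⁻¹ = ∑ᶠ g : G, χ g * χ g⁻¹ :=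
      finsum_congr fun g => by rw [hval]
    rw [h1, horth χ hχ', if_pos rfl]
    exact_mod_cast Nat.card_pos.ne'
  · rintro ⟨a, ha, hab⟩
    have hs := CEG_central X y hy
    have hs' : ∀ m, Commute (CEG_s X y)⁻¹ m := fun m => (hs m).inv_left
    have h1 := CEG_omega φ (CEG_s X y) hs
    have h2 := CEG_omega φ (CEG_s X y)⁻¹ hs'
    have h3 := hB4 (GY X y) φ hφ (CEG_s X y)⁻¹ (CEG_s X y)
    have h4 : ∑ᶠ t : GY X y, φ ((CEG_s X y)⁻¹ * (t * CEG_s X y * t⁻¹)) =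
        (Nat.card (GY X y) : ℂ) * φ 1 := by
      have h5 : ∀ t : GY X y, φ ((CEG_s X y)⁻¹ * (t * CEG_s X y * t⁻¹)) = φ 1 := by
        intro t
        rw [← (hs t).eq, mul_inv_cancel_right, inv_mul_cancel]
      have := Fintype.ofFinite (GY X y)
      rw [finsum_congr h5, finsum_eq_sum_of_fintype, Finset.sum_const, Finset.card_univ,
        nsmul_eq_mul, Nat.card_eq_fintype_card]
    rw [h4] at h3
    have hc : (Nat.card (GY X y) : ℂ) ≠ 0 := by
      exact_mod_cast Nat.card_pos.ne'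
    have h6 : φ 1 * φ 1 = φ (CEG_s X y)⁻¹ * φ (CEG_s X y) := by
      apply mul_left_cancel₀ hc
      linear_combination h3
    have h7 : omega φ (CEG_s X y) * omega φ (CEG_s X y)⁻¹ = 1 := by
      rw [h1, h2, div_mul_div_comm, mul_comm (φ (CEG_s X y)), ← h6]
      exact div_self (mul_ne_zero hφ1 hφ1)
    have h8 : IsIntegral ℤ (omega φ (CEG_s X y)⁻¹) := (hC3 (GY X y)).2.2.2 ⊤ φ hφ' _
    have h9 : omega φ (CEG_s X y) = ((a : integralClosure ℤ ℂ) : ℂ) := hab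
    rw [h9] at h7
    have h10 : a * (⟨omega φ (CEG_s X y)⁻¹, h8⟩ : integralClosure ℤ ℂ) = 1 := Subtype.ext h7
    apply hM.ne_top
    rw [Ideal.eq_top_iff_one, ← h10]
    exact M.mul_mem_right _ ha

end Pool.Agent.BQ
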